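import Pool.Agent.TH931.LP.Stm

/-!
# LP931-R: the recursion (helper911)
-/

set_option autoImplicit false

open MeasureTheory Set
open scoped ENNReal Matrix

noncomputable section

namespace Pool.Agent.TH911.LP931

open Pool.Agent.TH931.LP

variable {n m : ℕ} {U V U' V' : Type}

/-! ### general facts on frames -/

theorem dual_dual (F : Fr n U V) : F.dual.dual = F := rfl

theorem prod_dual (F : Fr n U V) (G : Fr m U' V') : (F.prod G).dual = F.dual.sum G.dual := rfl

theorem sum_dual (F : Fr n U V) (G : Fr m U' V') : (F.sum G).dual = F.dual.prod G.dual := rfl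

theorem good_dual {F : Fr n U V} (h : Good F) : Good F.dual where
  n_pos := h.n_pos
  half := h.dhalf
  dhalf := h.half
  le_one := fun b a => by
    have := h.le_one a b
    rwa [dotProduct_comm] at this
  vol := by
    have := h.vol
    rw [mul_comm] at this
    exact this

theorem good_sum (hg : S_gprod) [Fintype U] [Fintype V] [Fintype U'] [Fintype V']
    {F : Fr n U V} {G : Fr m U' V'} (hF : Good F) (hG : Good G) : Good (F.sum G) :=
  good_dual (hg n m V U V' U' F.dual G.dual (good_dual hF) (good_dual hG)).1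

theorem vol_sum (hg : S_gprod) [Fintype U] [Fintype V] [Fintype U'] [Fintype V']
    {F : Fr n U V} {G : Fr m U' V'} (hF : Good F) (hG : Good G) :
    volume (F.sum G).body = ENNReal.ofReal (n.factorial * m.factorial / (n + m).factorial) *
      (volume F.body * volume G.body) :=
  (hg n m V U V' U' F.dual G.dual (good_dual hF) (good_dual hG)).2.2

theorem alP_T [Fintype U] [Fintype U'] (α : U → V → ℝ) (α' : U' → V' → ℝ) :
    (fun b a => alP n m α α' a b) = alS n m (fun b a => α a b) (fun b a => α' a b) := by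
  funext b a
  cases a <;> rfl

theorem alS_T [Fintype V] [Fintype V'] (α : U → V → ℝ) (α' : U' → V' → ℝ) :
    (fun b a => alS n m α α' a b) = alP n m (fun b a => α a b) (fun b a => α' a b) := by
  funext b a
  cases b <;> rfl

theorem N_smul {F : Fr n U V} (h : Half F) {t : ℝ} (ht : 0 < t) (x : Fin n → ℝ) :
    F.N (t • x) = t * F.N x := by
  rw [← h.eq (t • x), h.smul t ht, dotProduct_smul, h.eq, smul_eq_mul]

theorem N_zero {F : Fr n U V} (h : Half F) : F.N 0 = 0 := by
  rw [← h.eq 0, dotProduct_zero]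

theorem N_nonneg {F : Fr n U V} (h : Half F) (x : Fin n → ℝ) : 0 ≤ F.N x := by
  by_cases hx : x = 0
  · rw [hx, N_zero h]
  · exact (h.pos x hx).le

theorem N_convex {F : Fr n U V} (h : Half F) : ConvexOn ℝ univ F.N := by
  refine ⟨convex_univ, fun x _ y _ a b ha hb _ => ?_⟩
  rw [← h.eq (a • x + b • y), dotProduct_add, dotProduct_smul, dotProduct_smul]
  exact add_le_add (smul_le_smul_of_nonneg_left (h.le _ x) ha)
    (smul_le_smul_of_nonneg_left (h.le _ y) hb)

theorem p1_add (x y : Fin (n + m) → ℝ) : p1 (x + y) = p1 x + p1 y := rfl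
theorem p2_add (x y : Fin (n + m) → ℝ) : p2 (x + y) = p2 x + p2 y := rfl
theorem p1_smul (t : ℝ) (x : Fin (n + m) → ℝ) : p1 (t • x) = t • p1 x := rfl
theorem p2_smul (t : ℝ) (x : Fin (n + m) → ℝ) : p2 (t • x) = t • p2 x := rfl

theorem p1_append (x : Fin n → ℝ) (y : Fin m → ℝ) : p1 (Fin.append x y) = x := by
  funext i
  simp [p1]

theorem p2_append (x : Fin n → ℝ) (y : Fin m → ℝ) : p2 (Fin.append x y) = y := by
  funext i
  simp [p2]

theorem append_p (x : Fin (n + m) → ℝ) : Fin.append (p1 x) (p2 x) = x := by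
  funext i
  refine Fin.addCases (fun i => ?_) (fun i => ?_) i
  · simp [p1]
  · simp [p2]

/-- the body of a sum -/
theorem body_sum {F : Fr n U V} {G : Fr m U' V'} (hF : Half F) (hG : Half G) :
    (F.sum G).body = convexHull ℝ ({x : Fin (n + m) → ℝ | p1 x ∈ F.body ∧ p2 x = 0} ∪
      {x : Fin (n + m) → ℝ | p1 x = 0 ∧ p2 x ∈ G.body}) := by
  apply Subset.antisymm
  · intro x hx
    have hx' : F.N (p1 x) + G.N (p2 x) ≤ 1 := hx
    set C := convexHull ℝ ({x : Fin (n + m) → ℝ | p1 x ∈ F.body ∧ p2 x = 0} ∪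
      {x : Fin (n + m) → ℝ | p1 x = 0 ∧ p2 x ∈ G.body}) with hC
    have hCc : Convex ℝ C := convex_convexHull ℝ _
    set s := F.N (p1 x) with hs
    set t := G.N (p2 x) with ht
    have hs0 : 0 ≤ s := N_nonneg hF _
    have ht0 : 0 ≤ t := N_nonneg hG _
    have key : ∀ {k : ℕ} {A B : Type} {H : Fr k A B} (_ : Half H) (y : Fin k → ℝ),
        ((H.N y)⁻¹ • y) ∈ H.body ∧ H.N y • ((H.N y)⁻¹ • y) = y := by
      intro k A B H hH y
      by_cases hy : y = 0
      · subst hy
        rw [smul_zero, smul_zero]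
        refine ⟨?_, rfl⟩
        show H.N 0 ≤ 1
        rw [N_zero hH]
        exact zero_le_one
      · have h0 := hH.pos y hy
        refine ⟨?_, by rw [smul_smul, mul_inv_cancel₀ h0.ne', one_smul]⟩
        show H.N ((H.N y)⁻¹ • y) ≤ 1
        rw [N_smul hH (inv_pos.2 h0), inv_mul_cancel₀ h0.ne']
    have hP : Fin.append (s⁻¹ • p1 x) (0 : Fin m → ℝ) ∈ C := by
      apply subset_convexHull
      left
      refine ⟨?_, ?_⟩
      · rw [p1_append]
        exact (key hF (p1 x)).1
      · rw [p2_append]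
    have hQ : Fin.append (0 : Fin n → ℝ) (t⁻¹ • p2 x) ∈ C := by
      apply subset_convexHull
      right
      refine ⟨?_, ?_⟩
      · rw [p1_append]
      · rw [p2_append]
        exact (key hG (p2 x)).1
    have h0 : (0 : Fin (n + m) → ℝ) ∈ C := by
      apply subset_convexHull
      left
      refine ⟨?_, rfl⟩
      show F.N 0 ≤ 1
      rw [N_zero hF]
      exact zero_le_one
    have hx1 : x = s • Fin.append (s⁻¹ • p1 x) (0 : Fin m → ℝ) +
        t • Fin.append (0 : Fin n → ℝ) (t⁻¹ • p2 x) := by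
      rw [← append_p (s • Fin.append (s⁻¹ • p1 x) (0 : Fin m → ℝ) +
        t • Fin.append (0 : Fin n → ℝ) (t⁻¹ • p2 x)), p1_add, p2_add, p1_smul, p1_smul,
        p2_smul, p2_smul, p1_append, p1_append, p2_append, p2_append, smul_zero, smul_zero,
        add_zero, zero_add, (key hF (p1 x)).2, (key hG (p2 x)).2, append_p]
    rcases (add_nonneg hs0 ht0).eq_or_lt with h | h
    · have hs' : s = 0 := by linarith
      have ht' : t = 0 := by linarith
      rw [hs', ht', zero_smul, zero_smul, add_zero] at hx1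
      rw [hx1]
      exact h0
    · have hR : (s / (s + t)) • Fin.append (s⁻¹ • p1 x) (0 : Fin m → ℝ) +
          (t / (s + t)) • Fin.append (0 : Fin n → ℝ) (t⁻¹ • p2 x) ∈ C :=
        hCc hP hQ (by positivity) (by positivity) (by field_simp)
      have hR2 := hCc hR h0 h.le (sub_nonneg.2 hx') (by ring)
      rw [smul_zero, add_zero, smul_add, smul_smul, smul_smul, mul_div_cancel₀ _ h.ne',
        mul_div_cancel₀ _ h.ne'] at hR2
      rw [hx1]
      exact hR2
  · apply convexHull_min
    · rintro x (⟨h1, h2⟩ | ⟨h1, h2⟩)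
      · show F.N (p1 x) + G.N (p2 x) ≤ 1
        rw [h2, N_zero hG, add_zero]
        exact h1
      · show F.N (p1 x) + G.N (p2 x) ≤ 1
        rw [h1, N_zero hF, zero_add]
        exact h2
    · intro x hx y hy a b ha hb hab
      have hx' : F.N (p1 x) + G.N (p2 x) ≤ 1 := hx
      have hy' : F.N (p1 y) + G.N (p2 y) ≤ 1 := hy
      show F.N (p1 (a • x + b • y)) + G.N (p2 (a • x + b • y)) ≤ 1
      have h1 := (N_convex hF).2 (mem_univ (p1 x)) (mem_univ (p1 y)) ha hb hab
      have h2 := (N_convex hG).2 (mem_univ (p2 x)) (mem_univ (p2 y)) ha hb hab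
      rw [p1_add, p2_add, p1_smul, p2_smul, p1_smul, p2_smul]
      simp only [smul_eq_mul] at h1 h2
      nlinarith

theorem HH_pred {n : ℕ} (hn : 0 < n) : (n : ℝ) * HH n = n * HH (n - 1) + 1 := by
  obtain ⟨k, rfl⟩ : ∃ k, n = k + 1 := ⟨n - 1, by omega⟩
  have : HH (k + 1) = HH k + 1 / ((k : ℝ) + 1) := by
    unfold HH
    rw [Finset.sum_range_succ]
  rw [Nat.add_sub_cancel, this]
  push_cast
  have : (k : ℝ) + 1 ≠ 0 := by positivity
  field_simp

theorem vol_pos {F : Fr n U V} (h : Good F) : 0 < volume.real F.body := by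
  have h1 := h.vol
  have h2 : (0 : ℝ) < 4 ^ n / n.factorial := by positivity
  rw [← h1] at h2
  exact (pos_iff_pos_of_mul_pos h2).2 (by
    rcases (measureReal_nonneg (μ := volume) (s := F.pol)).eq_or_lt with h3 | h3
    · rw [← h3, mul_zero] at h2
      exact absurd h2 (lt_irrefl _)
    · exact h3)

/-- R1 -/
theorem rprod (hg : S_gprod) (hk : S_kprod) (hs : S_ksum) (h0 : S_lam0) (hb : S_bprod)
    (hq : S_qprod) (hz : S_zprod) : S_rprod := by
  rintro a b A B Δ d Δ' d' ⟨U, V, _, _, F, α, mu, nu, LQ, Y, qa, lam, LZ, Z, g, C, hA, hΔ, hd⟩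
    ⟨U', V', _, _, G, α', mu', nu', LQ', Y', qa', lam', LZ', Z', g', C', hB, hΔ', hd'⟩
  have hgood := hg a b U V U' V' F G C.good C'.good
  obtain ⟨W, hW⟩ := hq a b U V U' V' F G α α' mu mu' LQ LQ' Y Y' qa qa' C.good C'.good C.ker
    C'.ker C.qc C'.qc
  obtain ⟨W', hW'⟩ := hz a b U V U' V' F G α α' mu mu' LQ LQ' Y Y' qa qa' lam lam' LZ LZ' Z Z'
    g g' C.good C'.good C.ker C'.ker C.qc C'.qc C.bk C'.bk C.zc C'.zc
  have hker := hk a b U V U' V' F G α α' mu mu' C.good C'.good C.ker C'.ker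
  have hbk := hb a b U V U' V' F G α α' mu mu' lam lam' C.good C'.good C.ker C'.ker C.bk C'.bk
  have hd1 := h0 a V U F.dual (fun b a => α a b) nu (good_dual C.good) C.dker
  have hd2 := h0 b V' U' G.dual (fun b a => α' a b) nu' (good_dual C'.good) C'.dker
  have hdk := hs a b V U V' U' F.dual G.dual (fun b a => α a b) (fun b a => α' a b) nu nu' _ _
    (good_dual C.good) (good_dual C'.good) C.dker C'.dker hd1 hd2
  have hbody : (F.prod G).body = {x | p1 x ∈ A ∧ p2 x ∈ B} := by
    rw [← hA, ← hB]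
    ext x
    exact max_le_iff (a := F.N (p1 x)) (b := G.N (p2 x)) (c := (1 : ℝ))
  have ha0 : (0 : ℝ) < a := by exact_mod_cast C.good.n_pos
  have hb0 : (0 : ℝ) < b := by exact_mod_cast C'.good.n_pos
  have hHa := HH_pred C.good.n_pos
  have hHb := HH_pred C'.good.n_pos
  have hvol : Real.log (volume.real (F.prod G).body) =
      Real.log (volume.real F.body) + Real.log (volume.real G.body) := by
    rw [← Real.log_mul (vol_pos C.good).ne' (vol_pos C'.good).ne']
    congr 1
    unfold Measure.real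
    rw [hgood.2.1, ENNReal.toReal_mul]
  have hdk' : Ker (F.prod G).dual (fun b' a' => alP a b α α' a' b') (muS F.dual G.dual nu nu'
      (lam0 F.dual (fun b a => α a b) nu) (lam0 G.dual (fun b a => α' a b) nu')) := by
    rw [prod_dual, alP_T]
    exact hdk
  refine ⟨U ⊕ U', V × V', inferInstance, inferInstance, F.prod G, alP a b α α', muP mu mu',
    muS F.dual G.dual nu nu' (lam0 F.dual (fun b a => α a b) nu)
      (lam0 G.dual (fun b a => α' a b) nu'),
    LQP LQ LQ', W, _, lamP F G mu mu' lam lam', LZP F G LQ LQ' LZ LZ', W', _,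
    ⟨hgood.1, hker, hdk', hW, hbk, hW'⟩, hbody, ?_, ?_⟩
  · rw [← hbody, hvol, hΔ, hΔ', ← hA, ← hB]
    push_cast
    linear_combination hHa + hHb
  · rw [hd, hd']
    have hab : (a : ℝ) + b ≠ 0 := by positivity
    have e1 : (a : ℝ) / (a + b) = 1 - (b : ℝ) / (a + b) := by field_simp; ring
    set t : ℝ := (b : ℝ) / (a + b) with ht
    rw [e1]
    linear_combination (1 - t) * hHa + t * hHb

/-- R2 -/
theorem rsum (hg : S_gprod) (hk : S_kprod) (hs : S_ksum) (hb : S_bsum)
    (hq : S_qsum) (hz : S_zsum) : S_rsum := by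
  rintro a b A B Δ d Δ' d' ⟨U, V, _, _, F, α, mu, nu, LQ, Y, qa, lam, LZ, Z, g, C, hA, hΔ, hd⟩
    ⟨U', V', _, _, G, α', mu', nu', LQ', Y', qa', lam', LZ', Z', g', C', hB, hΔ', hd'⟩
  have hgood := good_sum hg C.good C'.good
  obtain ⟨W, hW⟩ := hq a b U V U' V' F G α α' mu mu' LQ LQ' Y Y' qa qa' lam lam' LZ LZ' Z Z'
    g g' C.good C'.good C.ker C'.ker C.qc C'.qc C.bk C'.bk C.zc C'.zc
  obtain ⟨W', hW'⟩ := hz a b U V U' V' F G α α' lam lam' LZ LZ' Z Z'
    g g' C.good C'.good C.bk C'.bk C.zc C'.zc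
  have hker := hs a b U V U' V' F G α α' mu mu' lam lam' C.good C'.good C.ker C'.ker C.bk C'.bk
  have hbk := hb a b U V U' V' F G α α' mu mu' lam lam' C.good C'.good C.ker C'.ker C.bk C'.bk
  have hdk := hk a b V U V' U' F.dual G.dual (fun b a => α a b) (fun b a => α' a b) nu nu'
    (good_dual C.good) (good_dual C'.good) C.dker C'.dker
  have hbody := body_sum C.good.half C'.good.half
  rw [hA, hB] at hbody
  have ha0 : (0 : ℝ) < a := by exact_mod_cast C.good.n_pos
  have hb0 : (0 : ℝ) < b := by exact_mod_cast C'.good.n_pos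
  have hvol : Real.log (volume.real (F.sum G).body) =
      Real.log a.factorial + Real.log b.factorial - Real.log (a + b).factorial +
        (Real.log (volume.real F.body) + Real.log (volume.real G.body)) := by
    have h1 : (0 : ℝ) < a.factorial := by positivity
    have h2 : (0 : ℝ) < b.factorial := by positivity
    have h3 : (0 : ℝ) < (a + b).factorial := by positivity
    rw [← Real.log_mul (vol_pos C.good).ne' (vol_pos C'.good).ne', ← Real.log_mul h1.ne' h2.ne',
      ← Real.log_div (mul_pos h1 h2).ne' h3.ne', ← Real.log_mul (div_pos (mul_pos h1 h2) h3).ne'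
      (mul_pos (vol_pos C.good) (vol_pos C'.good)).ne']
    congr 1
    unfold Measure.real
    rw [vol_sum hg C.good C'.good, ENNReal.toReal_mul, ENNReal.toReal_mul,
      ENNReal.toReal_ofReal (by positivity)]
  have hdk' : Ker (F.sum G).dual (fun b' a' => alS a b α α' a' b') (muP nu nu') := by
    rw [sum_dual, alS_T]
    exact hdk
  refine ⟨U × U', V ⊕ V', inferInstance, inferInstance, F.sum G, alS a b α α',
    muS F G mu mu' lam lam', muP nu nu',
    LQS F G LQ LQ' LZ LZ', W, _, lamS lam lam', LZS LZ LZ', W', _,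
    ⟨hgood, hker, hdk', hW, hbk, hW'⟩, hbody, ?_, ?_⟩
  · rw [← hbody, hvol, hΔ, hΔ', hd, hd', ← hA, ← hB]
    unfold ww
    push_cast
    have hab : (a : ℝ) + b ≠ 0 := by positivity
    have e1 : (a : ℝ) / (a + b) = 1 - (b : ℝ) / (a + b) := by field_simp; ring
    set t : ℝ := (b : ℝ) / (a + b) with ht
    rw [e1]
    ring
  · rw [hd, hd']
    have hab : (a : ℝ) + b ≠ 0 := by positivity
    have e1 : (a : ℝ) / (a + b) = 1 - (b : ℝ) / (a + b) := by field_simp; ring
    set t : ℝ := (b : ℝ) / (a + b) with ht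
    rw [e1]
    ring

/-- R3 -/
theorem rcube (hc : S_gcube) (hq : S_qcube) (hz : S_zcube) : S_rcube := by
  intro c
  obtain ⟨hg, hb, hk, hd⟩ := hc c
  obtain ⟨lam, LZ, Z, hbk, hzc⟩ := hz c
  refine ⟨_, _, inferInstance, inferInstance, cubeF c, alC c, muC c, nuC c, _, _, _, lam, LZ, Z,
    _, ⟨hg, hk, hd, hq c, hbk, hzc⟩, hb, ?_, ?_⟩
  · have : volume.real (Icc (-1) 1 : Set (Fin (c + 1) → ℝ)) = 2 ^ (c + 1) := by
      rw [Measure.real, Real.volume_Icc_pi_toReal (by intro i; simp)]
      simp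
      norm_num
    rw [this, Real.log_pow]
    push_cast
    ring
  · ring

end Pool.Agent.TH911.LP931
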